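import Pool.Agent.H696DT.Kernel

set_option autoImplicit false

open MeasureTheory Finset Filter Topology

namespace Pool.Agent.H696DT

/-- `[0, 2^N)` -/
def II (N : ℕ) : Set ℝ := Set.Ico (0:ℝ) (2 ^ N)

/-- the box `[0, 2^N)³` -/
def B3 (N : ℕ) : Set (ℝ × ℝ × ℝ) := II N ×ˢ II N ×ˢ II N

/-- the box `[0, 2^N)²` -/
def B2 (N : ℕ) : Set (ℝ × ℝ) := II N ×ˢ II N

lemma meas_II (N : ℕ) : MeasurableSet (II N) := measurableSet_Ico
lemma meas_B3 (N : ℕ) : MeasurableSet (B3 N) := (meas_II N).prod ((meas_II N).prod (meas_II N))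
lemma meas_B2 (N : ℕ) : MeasurableSet (B2 N) := (meas_II N).prod (meas_II N)

lemma vol_II (N : ℕ) : volume (II N) < ⊤ := by
  unfold II; simp

lemma vol_B2 (N : ℕ) : volume (B2 N) < ⊤ := by
  unfold B2
  rw [Measure.volume_eq_prod, Measure.prod_prod]
  exact ENNReal.mul_lt_top (vol_II N) (vol_II N)

lemma vol_B3 (N : ℕ) : volume (B3 N) < ⊤ := by
  unfold B3
  rw [Measure.volume_eq_prod, Measure.prod_prod]
  exact ENNReal.mul_lt_top (vol_II N) (vol_B2 N)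

lemma II_eq (N M : ℕ) : II N = Set.Ico (0:ℝ) (((2 ^ (N + M) : ℕ) : ℝ) / 2 ^ M) := by
  unfold II
  congr 1
  push_cast
  rw [pow_add]
  field_simp

/-- product integrand -/
def prd (f g h : ℝ × ℝ → ℝ) (p : ℝ × ℝ × ℝ) : ℝ := f (p.1, p.2.1) * g (p.2.1, p.2.2) * h (p.2.2, p.1)

/-- step function -/
noncomputable def st (M : ℕ) (F : ℕ → ℕ → ℝ) (p : ℝ × ℝ) : ℝ := F (ix M p.1) (ix M p.2)

lemma form_step (N M e : ℕ) (he : e + 1 ≤ N + M) (k : ℤ) (hk : k = (e : ℤ) + 1 - M)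
    (F G H : ℕ → ℕ → ℝ) :
    (2:ℝ) ^ (-k) * ∫ p in B3 N, prd (st M F) (st M G) (st M H) p * W k p.1 p.2.1 p.2.2 =
      4 ^ N * TH704.Lam (N + M) (N + M - (e + 1)) F G H := by
  have h1 : ∫ p in B3 N, prd (st M F) (st M G) (st M H) p * W k p.1 p.2.1 p.2.2 =
      ∫ p in B3 N, (fun i j l => F i j * G j l * H l i * wk (2 ^ (e + 1)) i j l)
        (ix M p.1) (ix M p.2.1) (ix M p.2.2) := by
    refine setIntegral_congr_fun (meas_B3 N) fun p hp => ?_
    simp only [prd, st]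
    rw [W_ix M e k hk _ _ _ hp.1.1 hp.2.1.1 hp.2.2.1]
  have h2 := int3 M (2 ^ (N + M)) (fun i j l => F i j * G j l * H l i * wk (2 ^ (e + 1)) i j l)
  rw [← II_eq] at h2
  have h3 := discrete (N + M) (N + M - (e + 1)) (by omega) F G H
  have h4 : N + M - (N + M - (e + 1)) = e + 1 := by omega
  rw [h4] at h3
  rw [h1]
  unfold B3
  rw [h2, h3, hk]
  set L := TH704.Lam (N + M) (N + M - (e + 1)) F G H
  set s := N + M - (e + 1) with hs
  have e1 : (2:ℝ) ^ (-((e:ℤ) + 1 - M)) = 2 ^ M / 2 ^ (e + 1) := by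
    rw [neg_sub, zpow_sub₀ (by norm_num), zpow_natCast, ← Nat.cast_succ, zpow_natCast]
  rw [e1]
  have e2 : (4:ℝ) ^ s * 4 ^ (e + 1) = 4 ^ N * 4 ^ M := by
    rw [← pow_add, ← pow_add]; congr 1; omega
  have e3 : (8:ℝ) ^ (e + 1) = 2 ^ (e + 1) * 4 ^ (e + 1) := by rw [← mul_pow]; norm_num
  have e4 : (4:ℝ) ^ M = 2 ^ M * 2 ^ M := by rw [← mul_pow]; norm_num
  rw [e3]
  have e5 : ((1 / 2 : ℝ) ^ M) ^ 3 = 1 / (2 ^ M * 2 ^ M * 2 ^ M) := by
    rw [one_div, inv_pow]; field_simp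
  rw [e5]
  have e6 : (4:ℝ) ^ s * 4 ^ (e + 1) = 4 ^ N * (2 ^ M * 2 ^ M) := by rw [e2, e4]
  have p1 : (0:ℝ) < 2 ^ M := by positivity
  have p2 : (0:ℝ) < 2 ^ (e + 1) := by positivity
  calc (2:ℝ) ^ M / 2 ^ (e + 1) * (1 / (2 ^ M * 2 ^ M * 2 ^ M) *
        (4 ^ s * (2 ^ (e + 1) * 4 ^ (e + 1)) * L))
      = (4 ^ s * 4 ^ (e + 1)) * L / (2 ^ M * 2 ^ M) := by field_simp
    _ = 4 ^ N * L := by rw [e6]; field_simp

/-- the cube of the `L³` norm over the box -/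
noncomputable def nrm (N : ℕ) (f : ℝ × ℝ → ℝ) : ℝ := ∫ p in B2 N, |f p| ^ 3

lemma nrm_step (N M : ℕ) (F : ℕ → ℕ → ℝ) :
    nrm N (st M F) = 4 ^ N * TH704.a3 (N + M) F := by
  have h2 := int2 M (2 ^ (N + M)) (fun i j => |F i j| ^ 3)
  rw [← II_eq] at h2
  unfold nrm B2 st TH704.a3
  rw [h2, ← mul_assoc]
  congr 1
  rw [pow_add, ← mul_assoc, ← mul_pow]
  norm_num
  rw [← pow_mul, mul_comm M 2, pow_mul]
  norm_num

lemma step_bound {C : ℝ} (hC : ∀ (n : ℕ) (f g h : ℕ → ℕ → ℝ),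
      ∑ s ∈ range n, |TH704.Lam n s f g h| ≤ C * (TH704.a3 n f + TH704.a3 n g + TH704.a3 n h))
    (N M : ℕ) (S : Finset ℤ) (hS : ∀ k ∈ S, -(M : ℤ) < k ∧ k ≤ N) (F G H : ℕ → ℕ → ℝ) :
    ∑ k ∈ S, |(2:ℝ) ^ (-k) *
        ∫ p in B3 N, prd (st M F) (st M G) (st M H) p * W k p.1 p.2.1 p.2.2| ≤
      C * (nrm N (st M F) + nrm N (st M G) + nrm N (st M H)) := by
  have h1 : ∀ k ∈ S, |(2:ℝ) ^ (-k) *
        ∫ p in B3 N, prd (st M F) (st M G) (st M H) p * W k p.1 p.2.1 p.2.2| =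
      4 ^ N * |TH704.Lam (N + M) ((N : ℤ) - k).toNat F G H| := by
    intro k hk
    obtain ⟨hk1, hk2⟩ := hS k hk
    have hkM : k = (((k + M - 1).toNat : ℕ) : ℤ) + 1 - M := by
      rw [Int.toNat_of_nonneg (by omega)]; ring
    have hs : ((N : ℤ) - k).toNat = N + M - ((k + M - 1).toNat + 1) := by omega
    rw [form_step N M (k + M - 1).toNat (by omega) k hkM F G H, abs_mul,
      abs_of_nonneg (by positivity : (0:ℝ) ≤ 4 ^ N), hs]
  rw [sum_congr rfl h1, ← mul_sum]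
  have hinj : Set.InjOn (fun k : ℤ => ((N : ℤ) - k).toNat) (S : Set ℤ) := by
    intro a ha b hb hab
    have h1 := hS a ha
    have h2 := hS b hb
    simp only at hab
    omega
  have h2 : ∑ k ∈ S, |TH704.Lam (N + M) ((N : ℤ) - k).toNat F G H| ≤
      ∑ s ∈ range (N + M), |TH704.Lam (N + M) s F G H| := by
    rw [← sum_image (f := fun s => |TH704.Lam (N + M) s F G H|) hinj]
    refine sum_le_sum_of_subset_of_nonneg ?_ fun _ _ _ => abs_nonneg _
    intro s hs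
    rw [mem_image] at hs
    obtain ⟨k, hk, rfl⟩ := hs
    have := hS k hk
    rw [mem_range]
    omega
  calc 4 ^ N * ∑ k ∈ S, |TH704.Lam (N + M) ((N : ℤ) - k).toNat F G H|
      ≤ 4 ^ N * (C * (TH704.a3 (N + M) F + TH704.a3 (N + M) G + TH704.a3 (N + M) H)) :=
        mul_le_mul_of_nonneg_left (h2.trans (hC _ _ _ _)) (by positivity)
    _ = _ := by rw [nrm_step, nrm_step, nrm_step]; ring

/-- centre of the dyadic square -/
noncomputable def ctr (M i j : ℕ) : ℝ × ℝ := (((i : ℝ) + 1 / 2) / 2 ^ M, ((j : ℝ) + 1 / 2) / 2 ^ M)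

/-- half side -/
noncomputable def hs (M : ℕ) : ℝ := 1 / 2 / 2 ^ M

/-- average over the closed dyadic square -/
noncomputable def av (f : ℝ × ℝ → ℝ) (M i j : ℕ) : ℝ :=
  ⨍ p in Metric.closedBall (ctr M i j) (hs M), f p

lemma av_le {f : ℝ × ℝ → ℝ} {B : ℝ} (hB : ∀ p, |f p| ≤ B) (M i j : ℕ) : |av f M i j| ≤ B := by
  have hB0 : 0 ≤ B := (abs_nonneg _).trans (hB 0)
  unfold av
  rw [setAverage_eq, smul_eq_mul, abs_mul]
  have h1 : ‖∫ p in Metric.closedBall (ctr M i j) (hs M), f p‖ ≤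
      B * volume.real (Metric.closedBall (ctr M i j) (hs M)) :=
    norm_setIntegral_le_of_norm_le_const measure_closedBall_lt_top fun x _ => hB x
  rw [Real.norm_eq_abs] at h1
  rcases eq_or_lt_of_le (measureReal_nonneg (μ := (volume : Measure (ℝ × ℝ)))
    (s := Metric.closedBall (ctr M i j) (hs M))) with h0 | h0
  · rw [← h0]; simpa using hB0
  · rw [abs_of_pos (inv_pos.2 h0), inv_mul_le_iff₀ h0, mul_comm]
    exact h1

lemma av_tendsto {f : ℝ × ℝ → ℝ} (hf : LocallyIntegrable f) :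
    ∀ᵐ p : ℝ × ℝ, 0 ≤ p.1 → 0 ≤ p.2 →
      Tendsto (fun M => st M (av f M) p) atTop (𝓝 (f p)) := by
  filter_upwards [IsUnifLocDoublingMeasure.ae_tendsto_average volume hf 1] with p hp h1 h2
  refine hp (fun M => ctr M (ix M p.1) (ix M p.2)) hs ?_ ?_
  · rw [tendsto_nhdsWithin_iff]
    constructor
    · unfold hs
      have : Tendsto (fun M : ℕ => (1 / 2 : ℝ) * (1 / 2) ^ M) atTop (𝓝 (1 / 2 * 0)) :=
        (tendsto_pow_atTop_nhds_zero_of_lt_one (by norm_num) (by norm_num)).const_mul _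
      rw [mul_zero] at this
      refine this.congr fun M => ?_
      rw [one_div, inv_pow]; field_simp
    · refine Eventually.of_forall fun M => ?_
      unfold hs
      simp only [Set.mem_Ioi]; positivity
  · refine Eventually.of_forall fun M => ?_
    rw [one_mul, Metric.mem_closedBall, Prod.dist_eq]
    have key : ∀ x : ℝ, 0 ≤ x → dist x (((ix M x : ℝ) + 1 / 2) / 2 ^ M) ≤ hs M := by
      intro x hx
      have a1 := ix_le (M := M) hx
      have a2 := lt_ix (M := M) (x := x)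
      rw [Real.dist_eq, abs_le]
      unfold hs
      have e1 : ((ix M x : ℝ) + 1 / 2) / 2 ^ M = (ix M x : ℝ) / 2 ^ M + 1 / 2 / 2 ^ M := by ring
      have e2 : ((ix M x : ℝ) + 1) / 2 ^ M = (ix M x : ℝ) / 2 ^ M + 1 / 2 / 2 ^ M + 1 / 2 / 2 ^ M := by
        ring
      rw [e1]
      rw [e2] at a2
      constructor <;> linarith
    exact max_le (key _ h1) (key _ h2)

lemma ae_three {P : ℝ × ℝ → Prop} (h : ∀ᵐ p : ℝ × ℝ, P p) :
    ∀ᵐ p : ℝ × ℝ × ℝ, P (p.1, p.2.1) ∧ P (p.2.1, p.2.2) ∧ P (p.2.2, p.1) := by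
  have h1 : Measure.QuasiMeasurePreserving (fun p : ℝ × ℝ × ℝ => (p.1, p.2.1))
      volume volume :=
    MeasureTheory.QuasiMeasurePreserving.prodMap
      (Measure.QuasiMeasurePreserving.id (volume : Measure ℝ))
      (Measure.quasiMeasurePreserving_fst (μ := (volume : Measure ℝ)) (ν := (volume : Measure ℝ)))
  have h2 : Measure.QuasiMeasurePreserving (fun p : ℝ × ℝ × ℝ => (p.2.1, p.2.2))
      volume volume :=
    (Measure.quasiMeasurePreserving_snd (μ := (volume : Measure ℝ))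
      (ν := (volume : Measure (ℝ × ℝ))))
  have h3 : Measure.QuasiMeasurePreserving (fun p : ℝ × ℝ × ℝ => (p.1, p.2.2))
      volume volume :=
    MeasureTheory.QuasiMeasurePreserving.prodMap
      (Measure.QuasiMeasurePreserving.id (volume : Measure ℝ))
      (Measure.quasiMeasurePreserving_snd (μ := (volume : Measure ℝ)) (ν := (volume : Measure ℝ)))
  have h4 : Measure.QuasiMeasurePreserving (fun p : ℝ × ℝ × ℝ => (p.2.2, p.1))
      volume volume :=
    (Measure.measurePreserving_swap (μ := (volume : Measure ℝ))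
      (ν := (volume : Measure ℝ))).quasiMeasurePreserving.comp h3
  filter_upwards [h1.ae h, h2.ae h, h4.ae h] with p a b c
  exact ⟨a, b, c⟩

end Pool.Agent.H696DT
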