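import Pool.Agent.H696DT.Step

set_option autoImplicit false

open MeasureTheory Finset

namespace Pool.Agent.H696DT

/-- The Haar function of the dyadic interval `[2^k n, 2^k (n+1))`, normalised in `L^∞`:
`1` on the left half, `-1` on the right half, `0` elsewhere. -/
noncomputable def haar (k : ℤ) (n : ℕ) (x : ℝ) : ℝ :=
  if (2:ℝ) ^ k * n ≤ x ∧ x < (2:ℝ) ^ k * (n + 1 / 2) then 1
  else if (2:ℝ) ^ k * (n + 1 / 2) ≤ x ∧ x < (2:ℝ) ^ k * (n + 1) then -1 else 0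

/-- `W_k(x,y,z) = ∑ h_I(x) h_J(y) h_K(z)`, over the triples of dyadic intervals of length `2^k`
with indices `a, b, c ≥ 0` such that `a ⊕ b ⊕ c = 0`. -/
noncomputable def W (k : ℤ) (x y z : ℝ) : ℝ :=
  ∑' t : ℕ × ℕ × ℕ, if t.1 ^^^ t.2.1 ^^^ t.2.2 = 0 then
    haar k t.1 x * haar k t.2.1 y * haar k t.2.2 z else 0

lemma thr_le {M c : ℕ} {x : ℝ} (hx : 0 ≤ x) : (c : ℝ) / 2 ^ M ≤ x ↔ c ≤ ix M x := by
  unfold ix
  rw [Nat.le_floor_iff (by positivity), div_le_iff₀ (by positivity)]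

lemma thr_lt {M c : ℕ} {x : ℝ} (hx : 0 ≤ x) : x < (c : ℝ) / 2 ^ M ↔ ix M x < c := by
  unfold ix
  rw [Nat.floor_lt (by positivity), lt_div_iff₀ (by positivity)]

lemma haar_ix (M e : ℕ) (k : ℤ) (hk : k = (e : ℤ) + 1 - M) (n : ℕ) (x : ℝ) (hx : 0 ≤ x) :
    haar k n x = if ix M x / 2 ^ (e + 1) = n then TH704.sgn (2 ^ (e + 1)) (ix M x % 2 ^ (e + 1))
      else 0 := by
  have h2k : (2:ℝ) ^ k = 2 ^ (e + 1) / 2 ^ M := by
    rw [hk, zpow_sub₀ (by norm_num), zpow_natCast, ← Nat.cast_succ, zpow_natCast]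
  have e0 : (2:ℝ) ^ k * n = ((2 ^ (e + 1) * n : ℕ) : ℝ) / 2 ^ M := by
    rw [h2k]; push_cast; ring
  have e1 : (2:ℝ) ^ k * (n + 1 / 2) = ((2 ^ (e + 1) * n + 2 ^ e : ℕ) : ℝ) / 2 ^ M := by
    rw [h2k]; push_cast; ring
  have e2 : (2:ℝ) ^ k * (n + 1) = ((2 ^ (e + 1) * (n + 1) : ℕ) : ℝ) / 2 ^ M := by
    rw [h2k]; push_cast; ring
  unfold haar
  simp only [e0, e1, e2, thr_le hx, thr_lt hx]
  set i := ix M x
  have hm : 2 ^ (e + 1) = 2 * 2 ^ e := by ring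
  set q := 2 ^ e with hq
  have hq0 : 0 < q := by positivity
  rw [hm]
  unfold TH704.sgn
  have hdm := Nat.div_add_mod i (2 * q)
  have hlt := Nat.mod_lt i (show 0 < 2 * q by omega)
  by_cases hn : i / (2 * q) = n
  · rw [if_pos hn]
    rw [hn] at hdm
    by_cases h3 : 2 * (i % (2 * q)) < 2 * q
    · rw [if_pos (by constructor <;> omega), if_pos h3]
    · have h4 : i < 2 * q * (n + 1) := by rw [Nat.mul_add]; omega
      rw [if_neg (by omega), if_pos ⟨by omega, h4⟩, if_neg h3]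
  · rw [if_neg hn]
    have h1 : ¬ (2 * q * n ≤ i ∧ i < 2 * q * (n + 1)) := by
      rintro ⟨a1, a2⟩
      apply hn
      refine Nat.div_eq_of_lt_le ?_ ?_
      · rw [mul_comm]; exact a1
      · rw [mul_comm]; exact a2
    rw [Nat.mul_add] at h1 ⊢
    rw [if_neg (by omega), if_neg (by omega)]

lemma W_ix (M e : ℕ) (k : ℤ) (hk : k = (e : ℤ) + 1 - M) (x y z : ℝ) (hx : 0 ≤ x) (hy : 0 ≤ y)
    (hz : 0 ≤ z) : W k x y z = wk (2 ^ (e + 1)) (ix M x) (ix M y) (ix M z) := by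
  unfold W wk
  rw [tsum_eq_single (ix M x / 2 ^ (e + 1), ix M y / 2 ^ (e + 1), ix M z / 2 ^ (e + 1))]
  · simp only [haar_ix M e k hk _ _ hx, haar_ix M e k hk _ _ hy, haar_ix M e k hk _ _ hz, if_true]
  · rintro ⟨a, b, c⟩ hne
    simp only [haar_ix M e k hk _ _ hx, haar_ix M e k hk _ _ hy, haar_ix M e k hk _ _ hz]
    by_cases ha : ix M x / 2 ^ (e + 1) = a
    · by_cases hb : ix M y / 2 ^ (e + 1) = b
      · by_cases hc : ix M z / 2 ^ (e + 1) = c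
        · exact absurd (by rw [ha, hb, hc]) hne
        · simp [hc]
      · simp [hb]
    · simp [ha]

lemma sgn_abs (M i : ℕ) : |TH704.sgn M i| = 1 := by
  unfold TH704.sgn
  split_ifs <;> simp

lemma wk_abs (m i j l : ℕ) : |wk m i j l| ≤ 1 := by
  unfold wk
  split_ifs
  · rw [abs_mul, abs_mul, sgn_abs, sgn_abs, sgn_abs]; norm_num
  · simp

lemma exists_e (k : ℤ) : ∃ M e : ℕ, k = (e : ℤ) + 1 - M := by
  rcases le_or_gt 1 k with h | h
  · refine ⟨0, (k - 1).toNat, ?_⟩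
    rw [Int.toNat_of_nonneg (by omega)]; simp
  · refine ⟨(1 - k).toNat, 0, ?_⟩
    rw [Int.toNat_of_nonneg (by omega)]; simp

lemma W_abs (k : ℤ) (x y z : ℝ) (hx : 0 ≤ x) (hy : 0 ≤ y) (hz : 0 ≤ z) : |W k x y z| ≤ 1 := by
  obtain ⟨M, e, hk⟩ := exists_e k
  rw [W_ix M e k hk x y z hx hy hz]
  exact wk_abs _ _ _ _

end Pool.Agent.H696DT
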