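import Pool.Agent.H696DT.Bound

set_option autoImplicit false

open MeasureTheory Finset Filter Topology

namespace Pool.Agent.H696DT

lemma locInt {f : ℝ × ℝ → ℝ} (hf : Measurable f) {B : ℝ} (hB : ∀ p, |f p| ≤ B) :
    LocallyIntegrable f := by
  have h : MemLp f ⊤ (volume : Measure (ℝ × ℝ)) :=
    memLp_top_of_bound hf.aestronglyMeasurable B (Eventually.of_forall fun p => hB p)
  exact h.locallyIntegrable le_top

lemma meas_st (M : ℕ) (F : ℕ → ℕ → ℝ) : Measurable (st M F) := meas2 M F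

lemma meas_prd {f g h : ℝ × ℝ → ℝ} (hf : Measurable f) (hg : Measurable g) (hh : Measurable h) :
    Measurable (prd f g h) := by
  unfold prd
  have h1 : Measurable fun p : ℝ × ℝ × ℝ => (p.1, p.2.1) := by fun_prop
  have h2 : Measurable fun p : ℝ × ℝ × ℝ => (p.2.1, p.2.2) := by fun_prop
  have h3 : Measurable fun p : ℝ × ℝ × ℝ => (p.2.2, p.1) := by fun_prop
  exact ((hf.comp h1).mul (hg.comp h2)).mul (hh.comp h3)

lemma meas_W (k : ℤ) {s : Set (ℝ × ℝ × ℝ)} (hs : MeasurableSet s)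
    (h0 : ∀ p ∈ s, 0 ≤ p.1 ∧ 0 ≤ p.2.1 ∧ 0 ≤ p.2.2) :
    AEStronglyMeasurable (fun p : ℝ × ℝ × ℝ => W k p.1 p.2.1 p.2.2)
      (volume.restrict s) := by
  obtain ⟨M, e, hk⟩ := exists_e k
  have h1 : AEStronglyMeasurable (fun p : ℝ × ℝ × ℝ =>
      wk (2 ^ (e + 1)) (ix M p.1) (ix M p.2.1) (ix M p.2.2)) (volume.restrict s) :=
    (meas3 M (wk (2 ^ (e + 1)))).aestronglyMeasurable
  refine h1.congr ?_
  refine (ae_restrict_iff' hs).2 (Eventually.of_forall fun p hp => ?_)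
  obtain ⟨a, b, c⟩ := h0 p hp
  exact (W_ix M e k hk _ _ _ a b c).symm

lemma B3_nonneg {N : ℕ} {p : ℝ × ℝ × ℝ} (hp : p ∈ B3 N) : 0 ≤ p.1 ∧ 0 ≤ p.2.1 ∧ 0 ≤ p.2.2 :=
  ⟨hp.1.1, hp.2.1.1, hp.2.2.1⟩

lemma tendsto_form (N : ℕ) (k : ℤ) {f g h : ℝ × ℝ → ℝ} (hf : Measurable f) (hg : Measurable g)
    (hh : Measurable h) {B : ℝ} (hfB : ∀ p, |f p| ≤ B) (hgB : ∀ p, |g p| ≤ B)
    (hhB : ∀ p, |h p| ≤ B) :
    Tendsto (fun M => ∫ p in B3 N, prd (st M (av f M)) (st M (av g M)) (st M (av h M)) p *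
      W k p.1 p.2.1 p.2.2) atTop (𝓝 (∫ p in B3 N, prd f g h p * W k p.1 p.2.1 p.2.2)) := by
  have hB0 : 0 ≤ B := (abs_nonneg _).trans (hfB 0)
  refine tendsto_integral_of_dominated_convergence (fun _ => B * B * B * 1) ?_ ?_ ?_ ?_
  · intro M
    exact (meas_prd (meas_st _ _) (meas_st _ _) (meas_st _ _)).aestronglyMeasurable.mul
      (meas_W k (meas_B3 N) fun p hp => B3_nonneg hp)
  · exact integrableOn_const (vol_B3 N).ne
  · intro M
    refine (ae_restrict_iff' (meas_B3 N)).2 (Eventually.of_forall fun p hp => ?_)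
    obtain ⟨a, b, c⟩ := B3_nonneg hp
    have hW := W_abs k p.1 p.2.1 p.2.2 a b c
    rw [Real.norm_eq_abs]
    unfold prd st
    rw [abs_mul, abs_mul, abs_mul]
    have h1 := av_le hfB M (ix M p.1) (ix M p.2.1)
    have h2 := av_le hgB M (ix M p.2.1) (ix M p.2.2)
    have h3 := av_le hhB M (ix M p.2.2) (ix M p.1)
    gcongr
  · have e1 := ae_three (av_tendsto (locInt hf hfB))
    have e2 := ae_three (av_tendsto (locInt hg hgB))
    have e3 := ae_three (av_tendsto (locInt hh hhB))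
    refine (ae_restrict_iff' (meas_B3 N)).2 ?_
    filter_upwards [e1, e2, e3] with p a1 a2 a3 hp
    obtain ⟨a, b, c⟩ := B3_nonneg hp
    unfold prd
    exact (((a1.1 a b).mul (a2.2.1 b c)).mul (a3.2.2 c a)).mul_const _

lemma tendsto_nrm (N : ℕ) {f : ℝ × ℝ → ℝ} (hf : Measurable f) {B : ℝ} (hfB : ∀ p, |f p| ≤ B) :
    Tendsto (fun M => nrm N (st M (av f M))) atTop (𝓝 (nrm N f)) := by
  have hB0 : 0 ≤ B := (abs_nonneg _).trans (hfB 0)
  unfold nrm
  refine tendsto_integral_of_dominated_convergence (fun _ => B ^ 3) ?_ ?_ ?_ ?_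
  · intro M
    exact ((meas_st M _).abs.pow_const 3).aestronglyMeasurable
  · exact integrableOn_const (vol_B2 N).ne
  · intro M
    refine (ae_restrict_iff' (meas_B2 N)).2 (Eventually.of_forall fun p hp => ?_)
    rw [Real.norm_eq_abs, abs_pow, abs_abs]
    unfold st
    have h1 := av_le hfB M (ix M p.1) (ix M p.2)
    gcongr
  · refine (ae_restrict_iff' (meas_B2 N)).2 ?_
    filter_upwards [av_tendsto (locInt hf hfB)] with p hp hpB
    exact ((hp hpB.1.1 hpB.2.1).abs).pow 3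

lemma box_bound {C : ℝ} (hC : ∀ (n : ℕ) (f g h : ℕ → ℕ → ℝ),
      ∑ s ∈ range n, |TH704.Lam n s f g h| ≤ C * (TH704.a3 n f + TH704.a3 n g + TH704.a3 n h))
    (N : ℕ) (S : Finset ℤ) (hS : ∀ k ∈ S, k ≤ (N : ℤ)) {f g h : ℝ × ℝ → ℝ} (hf : Measurable f)
    (hg : Measurable g) (hh : Measurable h) {B : ℝ} (hfB : ∀ p, |f p| ≤ B) (hgB : ∀ p, |g p| ≤ B)
    (hhB : ∀ p, |h p| ≤ B) :
    ∑ k ∈ S, |(2:ℝ) ^ (-k) * ∫ p in B3 N, prd f g h p * W k p.1 p.2.1 p.2.2| ≤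
      C * (nrm N f + nrm N g + nrm N h) := by
  have h1 : Tendsto (fun M => ∑ k ∈ S, |(2:ℝ) ^ (-k) * ∫ p in B3 N,
      prd (st M (av f M)) (st M (av g M)) (st M (av h M)) p * W k p.1 p.2.1 p.2.2|) atTop
      (𝓝 (∑ k ∈ S, |(2:ℝ) ^ (-k) * ∫ p in B3 N, prd f g h p * W k p.1 p.2.1 p.2.2|)) :=
    tendsto_finsetSum _ fun k _ => ((tendsto_form N k hf hg hh hfB hgB hhB).const_mul _).abs
  have h2 : Tendsto (fun M => C * (nrm N (st M (av f M)) + nrm N (st M (av g M)) +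
      nrm N (st M (av h M)))) atTop (𝓝 (C * (nrm N f + nrm N g + nrm N h))) :=
    (((tendsto_nrm N hf hfB).add (tendsto_nrm N hg hgB)).add (tendsto_nrm N hh hhB)).const_mul _
  refine le_of_tendsto_of_tendsto h1 h2 ?_
  obtain ⟨b, hb⟩ := (S.image fun k : ℤ => (-k).toNat + 1).exists_le
  filter_upwards [eventually_ge_atTop b] with M hM
  refine step_bound hC N M S (fun k hk => ⟨?_, hS k hk⟩) _ _ _
  have := hb _ (mem_image_of_mem _ hk)
  omega

/-- the cube root trick -/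
lemma scal {L C A B D : ℝ} (hC : 0 ≤ C) (hA : 0 ≤ A) (hB : 0 ≤ B) (hD : 0 ≤ D)
    (h : ∀ s t u : ℝ, 0 < s → 0 < t → 0 < u → s * t * u = 1 →
      L ≤ C * ((s * A) ^ 3 + (t * B) ^ 3 + (u * D) ^ 3)) : L ≤ 3 * C * (A * B * D) := by
  have h1 : ∀ δ : ℝ, 0 < δ → L ≤ 3 * C * ((A + δ) * (B + δ) * (D + δ)) := by
    intro δ hδ
    set a := A + δ with ha
    set b := B + δ with hb
    set d := D + δ with hd
    have pa : 0 < a := by positivity
    have pb : 0 < b := by positivity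
    have pd : 0 < d := by positivity
    obtain ⟨ρ, hρ, hρ3⟩ : ∃ ρ : ℝ, 0 < ρ ∧ ρ ^ 3 = a * b * d := by
      refine ⟨(a * b * d) ^ ((1:ℝ) / 3), Real.rpow_pos_of_pos (by positivity) _, ?_⟩
      rw [← Real.rpow_natCast, ← Real.rpow_mul (by positivity)]
      norm_num
    have hh := h (ρ / a) (ρ / b) (ρ / d) (by positivity) (by positivity) (by positivity) (by
      have : ρ / a * (ρ / b) * (ρ / d) = ρ ^ 3 / (a * b * d) := by field_simp
      rw [this, hρ3]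
      exact div_self (by positivity))
    have k1 : (ρ / a * A) ^ 3 ≤ ρ ^ 3 := by
      refine pow_le_pow_left₀ (by positivity) ?_ 3
      rw [div_mul_eq_mul_div, div_le_iff₀ pa]
      exact mul_le_mul_of_nonneg_left (by linarith) hρ.le
    have k2 : (ρ / b * B) ^ 3 ≤ ρ ^ 3 := by
      refine pow_le_pow_left₀ (by positivity) ?_ 3
      rw [div_mul_eq_mul_div, div_le_iff₀ pb]
      exact mul_le_mul_of_nonneg_left (by linarith) hρ.le
    have k3 : (ρ / d * D) ^ 3 ≤ ρ ^ 3 := by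
      refine pow_le_pow_left₀ (by positivity) ?_ 3
      rw [div_mul_eq_mul_div, div_le_iff₀ pd]
      exact mul_le_mul_of_nonneg_left (by linarith) hρ.le
    calc L ≤ C * ((ρ / a * A) ^ 3 + (ρ / b * B) ^ 3 + (ρ / d * D) ^ 3) := hh
      _ ≤ C * (ρ ^ 3 + ρ ^ 3 + ρ ^ 3) := mul_le_mul_of_nonneg_left (by linarith) hC
      _ = 3 * C * (a * b * d) := by rw [hρ3]; ring
  have hcont : Tendsto (fun δ : ℝ => 3 * C * ((A + δ) * (B + δ) * (D + δ))) (𝓝[>] 0)
      (𝓝 (3 * C * ((A + 0) * (B + 0) * (D + 0)))) := by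
    apply Tendsto.mono_left _ nhdsWithin_le_nhds
    apply Continuous.tendsto
    fun_prop
  simp only [add_zero] at hcont
  refine ge_of_tendsto hcont ?_
  filter_upwards [self_mem_nhdsWithin] with δ hδ
  exact h1 δ hδ

end Pool.Agent.H696DT
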