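import Pool.Agent.Helper704.TH.Main

set_option autoImplicit false

open MeasureTheory Finset

namespace Pool.Agent.H696DT

/-- index of the dyadic interval of length `2^(-M)` containing `x ≥ 0` -/
noncomputable def ix (M : ℕ) (x : ℝ) : ℕ := ⌊x * 2 ^ M⌋₊

lemma measurable_ix (M : ℕ) : Measurable (ix M) := by
  unfold ix
  fun_prop

lemma ix_le {M : ℕ} {x : ℝ} (hx : 0 ≤ x) : (ix M x : ℝ) / 2 ^ M ≤ x := by
  rw [div_le_iff₀ (by positivity)]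
  exact Nat.floor_le (by positivity)

lemma lt_ix {M : ℕ} {x : ℝ} : x < ((ix M x : ℝ) + 1) / 2 ^ M := by
  rw [lt_div_iff₀ (by positivity)]
  exact Nat.lt_floor_add_one _

lemma ix_eq {M i : ℕ} {x : ℝ} (h : x ∈ Set.Ico ((i : ℝ) / 2 ^ M) (((i : ℝ) + 1) / 2 ^ M)) :
    ix M x = i := by
  unfold ix
  have h1 := h.1
  have h2 := h.2
  rw [div_le_iff₀ (by positivity)] at h1
  rw [lt_div_iff₀ (by positivity)] at h2
  rw [Nat.floor_eq_iff (le_trans (by positivity) h1)]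
  exact ⟨h1, h2⟩

lemma ix_lt {M n : ℕ} {x : ℝ} (hx : x ∈ Set.Ico (0 : ℝ) ((n : ℝ) / 2 ^ M)) : ix M x < n := by
  unfold ix
  rw [Nat.floor_lt (mul_nonneg hx.1 (by positivity))]
  have := hx.2
  rwa [lt_div_iff₀ (by positivity)] at this

lemma int1_aux (M : ℕ) (φ : ℕ → ℝ) (n : ℕ) :
    IntegrableOn (fun x => φ (ix M x)) (Set.Ico (0:ℝ) ((n : ℝ) / 2 ^ M)) ∧
    ∫ x in Set.Ico (0:ℝ) ((n : ℝ) / 2 ^ M), φ (ix M x) = (1 / 2) ^ M * ∑ i ∈ range n, φ i := by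
  induction n with
  | zero => simp
  | succ n ih =>
    obtain ⟨ih1, ih2⟩ := ih
    have hu : Set.Ico (0:ℝ) (((n + 1 : ℕ) : ℝ) / 2 ^ M) =
        Set.Ico (0:ℝ) ((n : ℝ) / 2 ^ M) ∪ Set.Ico ((n : ℝ) / 2 ^ M) (((n : ℝ) + 1) / 2 ^ M) := by
      rw [Set.Ico_union_Ico_eq_Ico (by positivity)]
      · push_cast; rfl
      · gcongr; linarith
    have hd : Disjoint (Set.Ico (0:ℝ) ((n : ℝ) / 2 ^ M))
        (Set.Ico ((n : ℝ) / 2 ^ M) (((n : ℝ) + 1) / 2 ^ M)) := Set.Ico_disjoint_Ico_same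
    have heq : Set.EqOn (fun _ : ℝ => φ n) (fun x => φ (ix M x))
        (Set.Ico ((n : ℝ) / 2 ^ M) (((n : ℝ) + 1) / 2 ^ M)) := fun x hx => by
      simp only [ix_eq hx]
    have h1 : IntegrableOn (fun x => φ (ix M x))
        (Set.Ico ((n : ℝ) / 2 ^ M) (((n : ℝ) + 1) / 2 ^ M)) := by
      refine IntegrableOn.congr_fun ?_ heq measurableSet_Ico
      exact integrableOn_const (by simp) 
    constructor
    · rw [hu]
      exact ih1.union h1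
    · rw [hu, setIntegral_union hd measurableSet_Ico ih1 h1, ih2,
        ← setIntegral_congr_fun measurableSet_Ico heq, setIntegral_const, sum_range_succ]
      have hv : volume.real (Set.Ico ((n : ℝ) / 2 ^ M) (((n : ℝ) + 1) / 2 ^ M)) = (1 / 2) ^ M := by
        rw [Real.volume_real_Ico_of_le (by gcongr; linarith)]
        rw [← sub_div]
        simp
      rw [hv, smul_eq_mul]
      ring

lemma exists_bd2 (n : ℕ) (Φ : ℕ → ℕ → ℝ) : ∃ C : ℝ, ∀ i < n, ∀ j < n, |Φ i j| ≤ C := by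
  obtain ⟨C, hC⟩ := ((range n ×ˢ range n).image fun t : ℕ × ℕ => |Φ t.1 t.2|).exists_le
  refine ⟨C, fun i hi j hj => hC _ ?_⟩
  rw [mem_image]
  exact ⟨(i, j), by simp [hi, hj], rfl⟩

lemma exists_bd3 (n : ℕ) (Φ : ℕ → ℕ → ℕ → ℝ) :
    ∃ C : ℝ, ∀ i < n, ∀ j < n, ∀ l < n, |Φ i j l| ≤ C := by
  obtain ⟨C, hC⟩ := ((range n ×ˢ range n ×ˢ range n).image
    fun t : ℕ × ℕ × ℕ => |Φ t.1 t.2.1 t.2.2|).exists_le
  refine ⟨C, fun i hi j hj l hl => hC _ ?_⟩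
  rw [mem_image]
  exact ⟨(i, j, l), by simp [hi, hj, hl], rfl⟩

lemma meas2 (M : ℕ) (Φ : ℕ → ℕ → ℝ) :
    Measurable fun p : ℝ × ℝ => Φ (ix M p.1) (ix M p.2) := by
  have h1 : Measurable fun p : ℝ × ℝ => ((ix M p.1, ix M p.2) : ℕ × ℕ) :=
    ((measurable_ix M).comp measurable_fst).prodMk ((measurable_ix M).comp measurable_snd)
  have h2 : Measurable fun t : ℕ × ℕ => Φ t.1 t.2 := measurable_of_countable _
  exact h2.comp h1

lemma meas3 (M : ℕ) (Φ : ℕ → ℕ → ℕ → ℝ) :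
    Measurable fun p : ℝ × ℝ × ℝ => Φ (ix M p.1) (ix M p.2.1) (ix M p.2.2) := by
  have h1 : Measurable fun p : ℝ × ℝ × ℝ => ((ix M p.1, ix M p.2.1, ix M p.2.2) : ℕ × ℕ × ℕ) :=
    ((measurable_ix M).comp measurable_fst).prodMk
      (((measurable_ix M).comp (measurable_fst.comp measurable_snd)).prodMk
        ((measurable_ix M).comp (measurable_snd.comp measurable_snd)))
  have h2 : Measurable fun t : ℕ × ℕ × ℕ => Φ t.1 t.2.1 t.2.2 := measurable_of_countable _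
  exact h2.comp h1

lemma int2 (M : ℕ) (n : ℕ) (Φ : ℕ → ℕ → ℝ) :
    ∫ p in Set.Ico (0:ℝ) ((n : ℝ) / 2 ^ M) ×ˢ Set.Ico (0:ℝ) ((n : ℝ) / 2 ^ M),
      Φ (ix M p.1) (ix M p.2) = ((1 / 2) ^ M) ^ 2 * ∑ i ∈ range n, ∑ j ∈ range n, Φ i j := by
  obtain ⟨C, hC⟩ := exists_bd2 n Φ
  have hint : IntegrableOn (fun p : ℝ × ℝ => Φ (ix M p.1) (ix M p.2))
      (Set.Ico (0:ℝ) ((n : ℝ) / 2 ^ M) ×ˢ Set.Ico (0:ℝ) ((n : ℝ) / 2 ^ M)) (volume.prod volume) := by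
    refine Measure.integrableOn_of_bounded (M := C) ?_ (meas2 M Φ).aestronglyMeasurable ?_
    · rw [Measure.prod_prod]
      simp [ENNReal.mul_eq_top]
    · refine (ae_restrict_iff' (measurableSet_Ico.prod measurableSet_Ico)).2
        (Filter.Eventually.of_forall fun p hp => ?_)
      exact hC _ (ix_lt hp.1) _ (ix_lt hp.2)
  rw [Measure.volume_eq_prod, setIntegral_prod _ hint]
  simp only
  have h1 : ∀ x : ℝ, ∫ y in Set.Ico (0:ℝ) ((n : ℝ) / 2 ^ M), Φ (ix M x) (ix M y) =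
      (1 / 2) ^ M * ∑ j ∈ range n, Φ (ix M x) j := fun x => (int1_aux M (Φ (ix M x)) n).2
  simp only [h1]
  rw [(int1_aux M (fun i => (1 / 2) ^ M * ∑ j ∈ range n, Φ i j) n).2, ← mul_sum]
  ring

lemma int3 (M : ℕ) (n : ℕ) (Φ : ℕ → ℕ → ℕ → ℝ) :
    ∫ p in Set.Ico (0:ℝ) ((n : ℝ) / 2 ^ M) ×ˢ Set.Ico (0:ℝ) ((n : ℝ) / 2 ^ M) ×ˢ
        Set.Ico (0:ℝ) ((n : ℝ) / 2 ^ M), Φ (ix M p.1) (ix M p.2.1) (ix M p.2.2) =
      ((1 / 2) ^ M) ^ 3 * ∑ i ∈ range n, ∑ j ∈ range n, ∑ l ∈ range n, Φ i j l := by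
  obtain ⟨C, hC⟩ := exists_bd3 n Φ
  have hint : IntegrableOn (fun p : ℝ × ℝ × ℝ => Φ (ix M p.1) (ix M p.2.1) (ix M p.2.2))
      (Set.Ico (0:ℝ) ((n : ℝ) / 2 ^ M) ×ˢ Set.Ico (0:ℝ) ((n : ℝ) / 2 ^ M) ×ˢ
        Set.Ico (0:ℝ) ((n : ℝ) / 2 ^ M)) (volume.prod volume) := by
    refine Measure.integrableOn_of_bounded (M := C) ?_ (meas3 M Φ).aestronglyMeasurable ?_
    · rw [Measure.prod_prod, Measure.volume_eq_prod, Measure.prod_prod]
      simp [ENNReal.mul_eq_top]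
    · refine (ae_restrict_iff' (measurableSet_Ico.prod
        (measurableSet_Ico.prod measurableSet_Ico))).2
        (Filter.Eventually.of_forall fun p hp => ?_)
      exact hC _ (ix_lt hp.1) _ (ix_lt hp.2.1) _ (ix_lt hp.2.2)
  rw [Measure.volume_eq_prod, setIntegral_prod _ hint]
  simp only
  have h1 : ∀ x : ℝ, ∫ y in Set.Ico (0:ℝ) ((n : ℝ) / 2 ^ M) ×ˢ Set.Ico (0:ℝ) ((n : ℝ) / 2 ^ M),
      Φ (ix M x) (ix M y.1) (ix M y.2) =
      ((1 / 2) ^ M) ^ 2 * ∑ j ∈ range n, ∑ l ∈ range n, Φ (ix M x) j l :=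
    fun x => int2 M n (Φ (ix M x))
  simp only [h1]
  rw [(int1_aux M (fun i => ((1 / 2) ^ M) ^ 2 * ∑ j ∈ range n, ∑ l ∈ range n, Φ i j l) n).2,
    ← mul_sum]
  ring

lemma sum_blocks (a m : ℕ) (φ : ℕ → ℝ) :
    ∑ i ∈ range (a * m), φ i = ∑ p ∈ range a, ∑ i ∈ range m, φ (p * m + i) := by
  induction a with
  | zero => simp
  | succ a ih => rw [Nat.succ_mul, sum_range_add, ih, sum_range_succ]

/-- the value of the kernel at scale `m` on a small cube -/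
def wk (m i j l : ℕ) : ℝ :=
  if (i / m) ^^^ (j / m) ^^^ (l / m) = 0 then
    TH704.sgn m (i % m) * TH704.sgn m (j % m) * TH704.sgn m (l % m) else 0

lemma xor3 {p q r : ℕ} : p ^^^ q ^^^ r = 0 ↔ r = p ^^^ q := by
  constructor
  · intro h
    have : (p ^^^ q) ^^^ (p ^^^ q ^^^ r) = p ^^^ q := by rw [h]; simp
    rw [← this]
    rw [← Nat.xor_assoc (p ^^^ q) (p ^^^ q) r]
    simp
  · rintro rfl
    simp

lemma discrete (n s : ℕ) (hs : s ≤ n) (F G H : ℕ → ℕ → ℝ) :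
    ∑ i ∈ range (2 ^ n), ∑ j ∈ range (2 ^ n), ∑ l ∈ range (2 ^ n),
      F i j * G j l * H l i * wk (2 ^ (n - s)) i j l = 4 ^ s * 8 ^ (n - s) * TH704.Lam n s F G H := by
  have hn : 2 ^ n = 2 ^ s * 2 ^ (n - s) := by rw [← pow_add]; congr 1; omega
  unfold TH704.Lam
  rw [hn]
  set m := 2 ^ (n - s) with hm
  have hm0 : 0 < m := by positivity
  simp only [sum_blocks]
  have e : (4:ℝ) ^ s * 8 ^ (n - s) * ((1 / 4) ^ s * (1 / 8) ^ (n - s) *
      ∑ p ∈ range (2 ^ s), ∑ q ∈ range (2 ^ s),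
        ∑ i ∈ range m, ∑ j ∈ range m, ∑ k ∈ range m,
          TH704.sgn m i * TH704.sgn m j * TH704.sgn m k *
          F (p * m + i) (q * m + j) * G (q * m + j) ((p ^^^ q) * m + k) *
          H ((p ^^^ q) * m + k) (p * m + i)) =
      ∑ p ∈ range (2 ^ s), ∑ q ∈ range (2 ^ s),
        ∑ i ∈ range m, ∑ j ∈ range m, ∑ k ∈ range m,
          TH704.sgn m i * TH704.sgn m j * TH704.sgn m k *
          F (p * m + i) (q * m + j) * G (q * m + j) ((p ^^^ q) * m + k) *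
          H ((p ^^^ q) * m + k) (p * m + i) := by
    rw [← mul_assoc]
    have : (4:ℝ) ^ s * 8 ^ (n - s) * ((1 / 4) ^ s * (1 / 8) ^ (n - s)) = 1 := by
      have h1 : (4:ℝ) ^ s * (1 / 4) ^ s = 1 := by rw [← mul_pow]; norm_num
      have h2 : (8:ℝ) ^ (n - s) * (1 / 8) ^ (n - s) = 1 := by rw [← mul_pow]; norm_num
      calc _ = ((4:ℝ) ^ s * (1 / 4) ^ s) * ((8:ℝ) ^ (n - s) * (1 / 8) ^ (n - s)) := by ring
        _ = 1 := by rw [h1, h2, one_mul]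
    rw [this, one_mul]
  rw [e]
  refine sum_congr rfl fun p hp => ?_
  rw [sum_comm]
  refine sum_congr rfl fun q hq => sum_congr rfl fun i hi => sum_congr rfl fun j hj => ?_
  rw [mem_range] at hp hq hi hj
  have hdiv : ∀ p i : ℕ, i < m → (p * m + i) / m = p := fun p i hi => by
    rw [mul_comm, Nat.mul_add_div hm0, Nat.div_eq_of_lt hi, add_zero]
  have hmod : ∀ p i : ℕ, i < m → (p * m + i) % m = i := fun p i hi => by
    rw [mul_comm, Nat.mul_add_mod, Nat.mod_eq_of_lt hi]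
  rw [sum_eq_single (p ^^^ q)]
  · refine sum_congr rfl fun l hl => ?_
    rw [mem_range] at hl
    unfold wk
    rw [hdiv _ _ hi, hdiv _ _ hj, hdiv _ _ hl, hmod _ _ hi, hmod _ _ hj, hmod _ _ hl,
      if_pos (xor3.2 rfl)]
    ring
  · intro r _ hr
    refine sum_eq_zero fun l hl => ?_
    rw [mem_range] at hl
    unfold wk
    rw [hdiv _ _ hi, hdiv _ _ hj, hdiv _ _ hl, if_neg (fun h => hr (xor3.1 h))]
    ring
  · intro h
    exact absurd (mem_range.2 (Nat.xor_lt_two_pow hp hq)) h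

end Pool.Agent.H696DT
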